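import Mathlib
import Pool.Agent.H73.QuatGen

namespace Pool.Agent.Results.MP_c671ed_lc.NotAxiomatizable

open FirstOrder FirstOrder.Language Cardinal

/-- A unital ring that is a subdirect product of division rings (unital homomorphisms). -/
def IsSubdirect (R : Type) [Ring R] : Prop :=
  ∃ (ι : Type) (D : ι → Type) (_ : ∀ i, DivisionRing (D i)) (φ : R →+* ∀ i, D i),
    Function.Injective φ ∧ ∀ i, Function.Surjective fun x => φ x i

/-- A ring, not necessarily unital, that is a subdirect product of division rings. -/
def IsSubdirectNU (R : Type) [NonUnitalRing R] : Prop :=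
  ∃ (ι : Type) (D : ι → Type) (_ : ∀ i, DivisionRing (D i)) (φ : R →ₙ+* ∀ i, D i),
    Function.Injective φ ∧ ∀ i, Function.Surjective fun x => φ x i

/-- The function symbols `+`, `·`, `-`, `0`. -/
inductive NUFunc : ℕ → Type
  | add : NUFunc 2
  | mul : NUFunc 2
  | neg : NUFunc 1
  | zero : NUFunc 0

/-- The language `(+, ·, -, 0)` of rings without identity. -/
def nuRing : FirstOrder.Language.{0, 0} where
  Functions := NUFunc
  Relations := fun _ => Empty

/-- A ring, not necessarily unital, as a structure for `nuRing`. -/
@[reducible] def nuStr (R : Type) [NonUnitalRing R] : nuRing.Structure R where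
  funMap := fun {n} f =>
    match n, f with
    | _, .add => fun x => x 0 + x 1
    | _, .mul => fun x => x 0 * x 1
    | _, .neg => fun x => -x 0
    | _, .zero => fun _ => 0
  RelMap := fun r _ => Empty.elim r

/-- A unital ring as a structure for the language `(+, ·, -, 0, 1)`. -/
@[reducible] def uStr (R : Type) [Ring R] : Language.ring.Structure R :=
  (FirstOrder.Ring.compatibleRingOfRing R).toStructure

open Pool.Agent.H73.QuatGen

lemma not_nu : ¬ IsSubdirectNU R := by
  rintro ⟨ι, D, _, φ, h1, h2⟩
  refine ij_ne (h1 ?_)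
  rw [map_zero]
  funext i
  have hone : φ 1 i = 1 := by
    obtain ⟨r, hr⟩ := h2 i 1
    have : φ 1 i * φ r i = φ r i := by
      rw [← Pi.mul_apply, ← map_mul, one_mul]
    simp only at hr
    rwa [hr, mul_one] at this
  let f : R →+* D i :=
    { toFun := fun x => φ x i, map_one' := hone
      map_mul' := fun x y => by rw [map_mul]; rfl
      map_zero' := by rw [map_zero]; rfl
      map_add' := fun x y => by rw [map_add]; rfl }
  exact kill f (h2 i)

lemma nu_of {S : Type} [Ring S] (h : IsSubdirect S) : IsSubdirectNU S := by
  obtain ⟨ι, D, hD, φ, h1, h2⟩ := h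
  exact ⟨ι, D, hD, φ, h1, h2⟩

lemma pair : ∃ (S : Type) (_ : Ring S), IsSubdirect S ∧
    ∀ T : Language.ring.Theory, @Theory.Model _ S (uStr S) T ↔ @Theory.Model _ R (uStr R) T := by
  let _ := FirstOrder.Ring.compatibleRingOfRing R
  have hinf : Infinite R := Infinite.of_injective (fun n : ℕ => y n) fun n m h => by
    have := congrArg QuaternionAlgebra.re h
    simpa [y] using this
  have hc : (insert qi (insert qj (Set.range y))).Countable :=
    ((Set.countable_range y).insert _).insert _
  obtain ⟨E, hE1, hE2⟩ := exists_elementarySubstructure_card_eq Language.ring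
    (insert qi (insert qj (Set.range y))) (ℵ₀ : Cardinal.{0}) le_rfl (by simpa using hc.le_aleph0)
    (by simp [FirstOrder.Ring.card_ring, Cardinal.ofNat_le_aleph0])
    (by simp)
  have hfun : ∀ {n} (f : Language.ring.Functions n) (x : Fin n → R), (∀ i, x i ∈ E) →
      Structure.funMap f x ∈ E := fun f x hx => (E : Language.ring.Substructure R).fun_mem f x hx
  let S : Subring R :=
    { carrier := E
      mul_mem' := fun {a b} ha hb => hfun FirstOrder.Ring.mulFunc ![a, b]
        (fun i => by fin_cases i <;> assumption)
      add_mem' := fun {a b} ha hb => hfun FirstOrder.Ring.addFunc ![a, b]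
        (fun i => by fin_cases i <;> assumption)
      neg_mem' := fun {a} ha => hfun FirstOrder.Ring.negFunc ![a]
        (fun i => by fin_cases i; assumption)
      one_mem' := hfun FirstOrder.Ring.oneFunc ![] (fun i => i.elim0)
      zero_mem' := hfun FirstOrder.Ring.zeroFunc ![] (fun i => i.elim0) }
  have hcount : Countable S := by
    have : Countable E := Cardinal.mk_le_aleph0_iff.1 (by simpa using hE2.le)
    exact this
  refine ⟨S, inferInstance, ?_, fun T => ?_⟩
  · choose D hD f hf1 hf2 using fun x : {x : S // x ≠ 0} =>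
      sep S (hE1 (by simp)) (hE1 (by simp)) (fun n => hE1 (by simp)) x.1 x.2
    refine ⟨_, D, hD, RingHom.pi f, ?_, hf1⟩
    rw [injective_iff_map_eq_zero]
    intro x hx
    by_contra h
    exact hf2 ⟨x, h⟩ (congrFun hx ⟨x, h⟩)
  · have he : (uStr S : Language.ring.Structure E) = E.inducedStructure := by
      ext n f x : 4
      · cases f <;> rfl
      · exact f.elim
    refine Iff.trans ?_ (E.theory_model_iff T)
    rw [← he]
    rfl

/-- The inclusion of languages. -/
def incl : nuRing →ᴸ Language.ring where
  onFunction := fun {n} f =>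
    match n, f with
    | _, .add => FirstOrder.Ring.addFunc
    | _, .mul => FirstOrder.Ring.mulFunc
    | _, .neg => FirstOrder.Ring.negFunc
    | _, .zero => FirstOrder.Ring.zeroFunc
  onRelation := fun {_} r => Empty.elim r

lemma model_incl (S : Type) [Ring S] (T : nuRing.Theory) :
    @Theory.Model _ S (uStr S) (incl.onTheory T) ↔ @Theory.Model _ S (nuStr S) T := by
  let _ := uStr S
  let _ := nuStr S
  have : incl.IsExpansionOn S := ⟨fun {n} f x => by cases f <;> rfl, fun {n} r => r.elim⟩
  exact LHom.onTheory_model incl T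

/-- The subdirect products of division rings are not axiomatizable, in either reading. -/
theorem result :
    (¬ ∃ T : Language.ring.Theory, ∀ (R : Type) [Ring R],
      @Theory.Model _ R (uStr R) T ↔ IsSubdirect R) ∧
    (¬ ∃ T : nuRing.Theory, ∀ (R : Type) [NonUnitalRing R],
      @Theory.Model _ R (nuStr R) T ↔ IsSubdirectNU R) := by
  obtain ⟨S, _, h1, h2⟩ := pair
  constructor
  · rintro ⟨T, hT⟩
    exact not_nu (nu_of ((hT R).1 ((h2 T).1 ((hT S).2 h1))))
  · rintro ⟨T, hT⟩
    refine not_nu ((hT R).1 ((model_incl R T).1 ((h2 _).1 ((model_incl S T).2 ?_))))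
    exact (hT S).2 (nu_of h1)

end Pool.Agent.Results.MP_c671ed_lc.NotAxiomatizable
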